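import Mathlib
import Pool.Agent.H85.AAE2.Defs

/-! Project AAE2 (MP_ae801b_ag), module STB: the reduction step. -/

set_option autoImplicit false

open Polynomial

namespace Pool.Agent.H85.AAE2

open Pool.Agent.H71.AAE

universe u

section rowop

variable {B : Type u} [CommRing B] {n : ℕ}

/-- the matrix with row `a` equal to `w` and zero elsewhere -/
def rowN (a : Fin n) (w : Fin n → B) : Matrix (Fin n) (Fin n) B :=
  Matrix.of fun i j => if i = a then w j else 0

theorem rowN_mul_self (a : Fin n) (w : Fin n → B) (hw : w a = 0) :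
    rowN a w * rowN a w = 0 := by
  ext i j
  rw [Matrix.mul_apply, Matrix.zero_apply]
  apply Finset.sum_eq_zero
  intro l _
  simp only [rowN, Matrix.of_apply]
  by_cases hl : l = a
  · subst hl
    by_cases hi : i = l
    · rw [if_pos hi, hw, zero_mul]
    · rw [if_neg hi, zero_mul]
  · rw [if_neg hl, mul_zero]

/-- adding `w i` times the entry `a` to the entry `i` -/
def rowE (a : Fin n) (w : Fin n → B) (hw : w a = 0) : (Matrix (Fin n) (Fin n) B)ˣ where
  val := 1 + rowN a w
  inv := 1 - rowN a w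
  val_inv := by
    have h := rowN_mul_self a w hw
    rw [add_mul, mul_sub, mul_sub, mul_one, one_mul, mul_one, h]
    abel
  inv_val := by
    have h := rowN_mul_self a w hw
    rw [sub_mul, mul_add, mul_add, mul_one, one_mul, mul_one, h]
    abel

theorem vecMul_rowN (a : Fin n) (w : Fin n → B) (d : Fin n → B) (i : Fin n) :
    Matrix.vecMul d (rowN a w) i = d a * w i := by
  rw [Matrix.vecMul, dotProduct]
  rw [Finset.sum_eq_single a]
  · simp [rowN]
  · intro j _ hj
    simp [rowN, hj]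
  · intro h
    exact absurd (Finset.mem_univ a) h

theorem rmul_rowE (a : Fin n) (w : Fin n → B) (hw : w a = 0) (d : Fin n → B) (i : Fin n) :
    rmul d (rowE a w hw) i = d i + d a * w i := by
  change Matrix.vecMul d (1 + rowN a w) i = _
  rw [Matrix.vecMul_add, Matrix.vecMul_one, Pi.add_apply, vecMul_rowN]

theorem rmul_rowE_inv (a : Fin n) (w : Fin n → B) (hw : w a = 0) (d : Fin n → B) (i : Fin n) :
    rmul d (rowE a w hw)⁻¹ i = d i - d a * w i := by
  change Matrix.vecMul d (1 - rowN a w) i = _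
  rw [Matrix.vecMul_sub, Matrix.vecMul_one, Pi.sub_apply, vecMul_rowN]

theorem rmul_mul (d : Fin n → B) (E F : (Matrix (Fin n) (Fin n) B)ˣ) :
    rmul d (E * F) = rmul (rmul d E) F := by
  rw [rmul, rmul, rmul, Units.val_mul, Matrix.vecMul_vecMul]

theorem cong_rowE (b : Ideal B) (a : Fin n) (w : Fin n → B) (hw : w a = 0)
    (h : ∀ i, w i ∈ b) : Cong b (rowE a w hw) := by
  intro i j
  change (1 + rowN a w) i j - (1 : Matrix (Fin n) (Fin n) B) i j ∈ b
  rw [Matrix.add_apply, add_sub_cancel_left]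
  simp only [rowN, Matrix.of_apply]
  split_ifs
  · exact h j
  · exact b.zero_mem

/-- a row operation with pivot in the tail does not change the tail ideal -/
theorem tl_add {r : ℕ} (d : Fin (r + 3) → B) (w : Fin (r + 3) → B) (hw : w 1 = 0) :
    tl (fun i => d i + d 1 * w i) = tl d := by
  have key : ∀ (d : Fin (r + 3) → B) (w : Fin (r + 3) → B), w 1 = 0 →
      tl (fun i => d i + d 1 * w i) ≤ tl d := by
    intro d w _
    rw [tl, Ideal.span_le]
    rintro _ ⟨j, rfl⟩
    exact Ideal.add_mem _ (Ideal.subset_span ⟨j, rfl⟩)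
      (Ideal.mul_mem_right _ _ (Ideal.subset_span ⟨0, rfl⟩))
  refine le_antisymm (key d w hw) ?_
  have h := key (fun i => d i + d 1 * w i) (fun i => - w i) (by rw [hw, neg_zero])
  have h2 : (fun i => (fun i => d i + d 1 * w i) i + (fun i => d i + d 1 * w i) 1 * (- w i)) =
      d := by
    ext1 i
    simp only [hw]
    ring
  rwa [h2] at h

end rowop

section core

variable {Λ : Type u} [CommRing Λ]

/-- division by a polynomial with unit leading coefficient as a row operation -/
theorem row_reduce [IsDomain Λ] {r : ℕ} (d : Fin (r + 3) → Λ[X])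
    (hlc : IsUnit (d 1).leadingCoeff) :
    ∃ U : (Matrix (Fin (r + 3)) (Fin (r + 3)) Λ[X])ˣ,
      (∀ d' : Fin (r + 3) → Λ[X], tl (rmul d' U⁻¹) = tl d') ∧
      (∀ d' : Fin (r + 3) → Λ[X], tl (rmul d' U) = tl d') ∧
      rmul d U 1 = d 1 ∧ ∀ i, i ≠ 1 → (rmul d U i).degree < (d 1).degree := by
  classical
  obtain ⟨u, hu⟩ := hlc
  set p : Λ[X] := C ((u⁻¹ : Λˣ) : Λ) * d 1 with hp
  have hmon : p.Monic := by
    rw [Monic, hp, leadingCoeff_mul, leadingCoeff_C, ← hu, Units.inv_mul]
  have hdeg : p.degree = (d 1).degree := by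
    rw [hp, degree_mul, degree_C (Units.ne_zero _), zero_add]
  set w : Fin (r + 3) → Λ[X] :=
    fun i => if i = 1 then 0 else - (C ((u⁻¹ : Λˣ) : Λ) * (d i /ₘ p)) with hw
  have hw1 : w 1 = 0 := by rw [hw]; exact if_pos rfl
  refine ⟨rowE 1 w hw1, ?_, ?_, ?_, ?_⟩
  · intro d'
    have h1 : rmul d' (rowE 1 w hw1)⁻¹ = fun i => d' i + d' 1 * (- w i) := by
      ext1 i
      rw [rmul_rowE_inv]
      ring
    rw [h1]
    exact tl_add d' (fun i => - w i) (by rw [hw1, neg_zero])
  · intro d'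
    have h1 : rmul d' (rowE 1 w hw1) = fun i => d' i + d' 1 * (w i) := by
      ext1 i
      rw [rmul_rowE]
    rw [h1]
    exact tl_add d' w hw1
  · rw [rmul_rowE, hw1, mul_zero, add_zero]
  · intro i hi
    have h1 : rmul d (rowE 1 w hw1) i = d i %ₘ p := by
      rw [rmul_rowE, modByMonic_eq_sub_mul_div]
      have : w i = - (C ((u⁻¹ : Λˣ) : Λ) * (d i /ₘ p)) := by rw [hw]; exact if_neg hi
      rw [this]
      have h2 : p * (d i /ₘ p) = C ((u⁻¹ : Λˣ) : Λ) * d 1 * (d i /ₘ p) := by rw [← hp]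
      rw [h2]
      ring
    rw [h1, ← hdeg]
    exact degree_modByMonic_lt _ hmon

/-- core of the reduction step; the general position lemma and the dimension theory are
hypotheses -/
theorem star_reduce_core [IsDomain Λ] [IsNoetherianRing Λ] {r : ℕ} (b c : Ideal Λ[X])
    (hbc : b ≤ c) (h : Λ[X]) (hb : h ∈ b) (hh : IsUnit h.leadingCoeff)
    (gp : ∀ (Q : Type u) [CommRing Q] [IsNoetherianRing Q] (g : (Λ ⧸ b.comap (C : Λ →+* Λ[X])) →+* Q),
      g.IsIntegral → ∀ (a : Ideal Q) (x : Fin (r + 1) → Q) (y : Q),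
      (∀ p : Ideal Q, p.IsPrime → (∀ j, x j ∈ p) → y ∈ p → a ≤ p) →
      ∃ z : Fin (r + 1) → Q, (∀ j, z j ∈ a) ∧
        ∀ p : Ideal Q, p.IsPrime → (∀ j, x j + z j * y ∈ p) → a ≤ p)
    (d : Fin (r + 3) → Λ[X]) (hd0 : IsUnit (d 0).leadingCoeff)
    (hd : c ≤ Ideal.span (Set.range d)) (hc : c = tl d ⊔ b * c) :
    ∃ E U : (Matrix (Fin (r + 3)) (Fin (r + 3)) Λ[X])ˣ, Cong b E ∧
      (∀ d' : Fin (r + 3) → Λ[X], tl (rmul d' U⁻¹) = tl d') ∧
      IsUnit (rmul d (E * U) 1).leadingCoeff ∧
      (∀ i, i ≠ 1 → (rmul d (E * U) i).degree < (rmul d (E * U) 1).degree) ∧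
      c = tl (rmul d (E * U)) ⊔ (b.comap C).map C * c := by
  classical
  -- step (Ia)
  set q : Λ[X] := h ^ 2 * X ^ ((d 1).natDegree + 1) with hq
  have hh0 : h ≠ 0 := by
    rintro rfl
    rw [leadingCoeff_zero] at hh
    exact not_isUnit_zero hh
  have hd00 : d 0 ≠ 0 := by
    intro h0
    rw [h0, leadingCoeff_zero] at hd0
    exact not_isUnit_zero hd0
  have hq0 : d 0 * q ≠ 0 := mul_ne_zero hd00 (mul_ne_zero (pow_ne_zero _ hh0)
    (pow_ne_zero _ X_ne_zero))
  have hdeg : (d 1).degree < (d 0 * q).degree := by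
    apply degree_lt_degree
    have h1 : q.natDegree = (h ^ 2).natDegree + ((d 1).natDegree + 1) := by
      rw [hq, natDegree_mul (pow_ne_zero _ hh0) (pow_ne_zero _ X_ne_zero), natDegree_X_pow]
    have h2 : q ≠ 0 := right_ne_zero_of_mul hq0
    rw [natDegree_mul hd00 h2, h1]
    omega
  have hlc : IsUnit (d 1 + d 0 * q).leadingCoeff := by
    rw [leadingCoeff_add_of_degree_lt hdeg, leadingCoeff_mul, hq, leadingCoeff_mul,
      leadingCoeff_pow, leadingCoeff_X_pow, mul_one]
    exact hd0.mul (hh.pow 2)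
  have hqb : q ∈ b := by
    rw [hq, pow_two, mul_assoc]
    exact b.mul_mem_right _ hb
  have hqbc : d 0 * q ∈ b * c := by
    have : d 0 * q = h * (h * (X ^ ((d 1).natDegree + 1) * d 0)) := by
      rw [hq]
      ring
    rw [this]
    exact Ideal.mul_mem_mul hb (Ideal.mul_mem_right _ _ (hbc hb))
  -- the quotient ring
  set b₀ : Ideal Λ := b.comap (C : Λ →+* Λ[X]) with hb₀
  set J : Ideal Λ[X] := b₀.map C ⊔ Ideal.span {d 1 + d 0 * q} with hJ
  have hJd : d 1 + d 0 * q ∈ J := Ideal.mem_sup_right (Ideal.mem_span_singleton_self _)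
  have hb₀J : ∀ x ∈ b₀, ((Ideal.Quotient.mk J).comp C) x = 0 := by
    intro x hx
    rw [RingHom.comp_apply, Ideal.Quotient.eq_zero_iff_mem]
    exact Ideal.mem_sup_left (Ideal.mem_map_of_mem _ hx)
  have hint : (Ideal.Quotient.lift b₀ ((Ideal.Quotient.mk J).comp C) hb₀J).IsIntegral := by
    obtain ⟨u, hu⟩ := hlc
    have hmon : (C ((u⁻¹ : Λˣ) : Λ) * (d 1 + d 0 * q)).Monic := by
      rw [Monic, leadingCoeff_mul, leadingCoeff_C, ← hu, Units.inv_mul]
    have h1 := hmon.quotient_isIntegral (I := J) (Ideal.mul_mem_left _ _ hJd)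
    apply RingHom.IsIntegral.tower_top (Ideal.Quotient.mk b₀)
    have h2 : (Ideal.Quotient.lift b₀ ((Ideal.Quotient.mk J).comp C) hb₀J).comp
        (Ideal.Quotient.mk b₀) =
        (((Ideal.Quotient.mkₐ Λ J).comp (Algebra.ofId Λ Λ[X]) : Λ →ₐ[Λ] Λ[X] ⧸ J) :
          Λ →+* Λ[X] ⧸ J) := by
      apply RingHom.ext
      intro x
      rfl
    rw [h2]
    exact h1
  obtain ⟨z, hz, hzp⟩ := gp (Λ[X] ⧸ J) _ hint ((b * c).map (Ideal.Quotient.mk J))
    (fun j => Ideal.Quotient.mk J (d j.succ.succ)) (Ideal.Quotient.mk J (d 0)) (by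
    intro p _ hx hy
    rw [Ideal.map_le_iff_le_comap]
    refine Ideal.mul_le_right.trans (hd.trans ?_)
    rw [Ideal.span_le]
    rintro _ ⟨i, rfl⟩
    refine Fin.cases (motive := fun i => d i ∈ p.comap (Ideal.Quotient.mk J)) hy (fun i => ?_) i
    refine Fin.cases (motive := fun i => d i.succ ∈ p.comap (Ideal.Quotient.mk J)) ?_
      (fun i => hx i) i
    change d 1 ∈ p.comap _
    have h1 : d 1 + d 0 * q ∈ p.comap (Ideal.Quotient.mk J) := by
      rw [Ideal.mem_comap, Ideal.Quotient.eq_zero_iff_mem.2 hJd]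
      exact p.zero_mem
    have h2 : d 0 * q ∈ p.comap (Ideal.Quotient.mk J) := Ideal.mul_mem_right _ _ hy
    exact (Ideal.add_mem_iff_left _ h2).1 h1)
  choose z' hz' hz'' using fun j =>
    (Ideal.mem_map_iff_of_surjective _ Ideal.Quotient.mk_surjective).1 (hz j)
  -- the general position property upstairs
  have hP : ∀ P : Ideal Λ[X], P.IsPrime → J ≤ P → (∀ j, d j.succ.succ + z' j * d 0 ∈ P) →
      b ≤ P := by
    intro P hPp hJP hPz
    have hker : RingHom.ker (Ideal.Quotient.mk J) ≤ P := by rwa [Ideal.mk_ker]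
    have hpr : (P.map (Ideal.Quotient.mk J)).IsPrime :=
      Ideal.map_isPrime_of_surjective Ideal.Quotient.mk_surjective hker
    have h1 := hzp _ hpr (by
      intro j
      rw [← hz'' j, ← map_mul, ← map_add]
      exact Ideal.mem_map_of_mem _ (hPz j))
    rw [Ideal.map_le_iff_le_comap, Ideal.comap_map_of_surjective' _ Ideal.Quotient.mk_surjective,
      sup_eq_left.2 hker] at h1
    rcases hPp.mul_le.1 h1 with h2 | h2
    · exact h2
    · exact hbc.trans h2
  -- the new row
  set w : Fin (r + 3) → Λ[X] := Fin.cons 0 (Fin.cons q z') with hw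
  have hw0 : w 0 = 0 := rfl
  have hw1 : w 1 = q := rfl
  have hw2 : ∀ j : Fin (r + 1), w j.succ.succ = z' j := fun j => rfl
  have hwb : ∀ i, w i ∈ b := by
    intro i
    refine Fin.cases (motive := fun i => w i ∈ b) ?_ (fun i => ?_) i
    · rw [hw0]
      exact b.zero_mem
    · refine Fin.cases (motive := fun i => w i.succ ∈ b) ?_ (fun j => ?_) i
      · exact hqb
      · rw [hw2]
        exact Ideal.mul_le_left (hz' j)
  have hwbc : ∀ i, d 0 * w i ∈ b * c := by
    intro i
    refine Fin.cases (motive := fun i => d 0 * w i ∈ b * c) ?_ (fun i => ?_) i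
    · rw [hw0, mul_zero]
      exact Ideal.zero_mem _
    · refine Fin.cases (motive := fun i => d 0 * w i.succ ∈ b * c) ?_ (fun j => ?_) i
      · exact hqbc
      · rw [hw2]
        exact Ideal.mul_mem_left _ _ (hz' j)
  obtain ⟨d₁, hd₁⟩ : ∃ d₁ : Fin (r + 3) → Λ[X], d₁ = rmul d (rowE 0 w hw0) := ⟨_, rfl⟩
  have hd₁' : ∀ i, d₁ i = d i + d 0 * w i := fun i => by rw [hd₁, rmul_rowE]
  have htl : tl d₁ ≤ c := by
    rw [tl, Ideal.span_le]
    rintro _ ⟨j, rfl⟩
    change d₁ j.succ ∈ c
    rw [hd₁', hc]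
    exact Ideal.add_mem _ (Ideal.mem_sup_left (Ideal.subset_span ⟨j, rfl⟩))
      (Ideal.mem_sup_right (hwbc _))
  have hc1 : c ≤ tl d₁ ⊔ b * c := by
    have h1 : tl d ≤ tl d₁ ⊔ b * c := by
      rw [tl, Ideal.span_le]
      rintro _ ⟨j, rfl⟩
      change d j.succ ∈ tl d₁ ⊔ b * c
      have : d j.succ = d₁ j.succ - d 0 * w j.succ := by
        rw [hd₁']
        ring
      rw [this]
      exact Ideal.sub_mem _ (Ideal.mem_sup_left (Ideal.subset_span ⟨j, rfl⟩))
        (Ideal.mem_sup_right (hwbc _))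
    calc c = tl d ⊔ b * c := hc
      _ ≤ _ := sup_le h1 le_sup_right
  -- Nakayama
  have hcJ : c ≤ tl d₁ ⊔ b₀.map C * c := by
    obtain ⟨ρ, hρ, hρc⟩ := Submodule.exists_sub_one_mem_and_smul_le_of_fg_of_le_sup (I := b)
      (N := tl d₁ ⊔ b₀.map C * c) (N' := c) (P := c) (IsNoetherian.noetherian c) le_rfl (by
        refine hc1.trans (sup_le (le_sup_left.trans le_sup_left) ?_)
        exact le_sup_right)
    let Kc : Ideal Λ[X] :=
      { carrier := {x | ∀ y ∈ c, x * y ∈ tl d₁ ⊔ b₀.map C * c}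
        add_mem' := fun {x x'} hx hx' y hy => by
          rw [add_mul]
          exact Ideal.add_mem _ (hx y hy) (hx' y hy)
        zero_mem' := fun y _ => by
          rw [zero_mul]
          exact Ideal.zero_mem _
        smul_mem' := fun s x hx y hy => by
          rw [smul_eq_mul, mul_assoc]
          exact Ideal.mul_mem_left _ _ (hx y hy) }
    have h1 : Kc = ⊤ := by
      by_contra hne
      obtain ⟨P, hPm, hKP⟩ := Ideal.exists_le_maximal _ hne
      have htlP : tl d₁ ≤ P := by
        refine le_trans ?_ hKP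
        intro x hx y _
        exact Ideal.mem_sup_left (Ideal.mul_mem_right _ _ hx)
      have hbP : b ≤ P := by
        apply hP P hPm.isPrime
        · rw [hJ]
          refine sup_le ?_ ?_
          · refine le_trans ?_ hKP
            intro x hx y hy
            exact Ideal.mem_sup_right (Ideal.mul_mem_mul hx hy)
          · rw [Ideal.span_singleton_le_iff_mem]
            refine htlP ?_
            have : d 1 + d 0 * q = d₁ (0 : Fin (r + 2)).succ := by
              rw [hd₁']
              rfl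
            rw [this]
            exact Ideal.subset_span ⟨0, rfl⟩
        · intro j
          refine htlP ?_
          have : d j.succ.succ + z' j * d 0 = d₁ j.succ.succ := by
            rw [hd₁', hw2]
            ring
          rw [this]
          exact Ideal.subset_span ⟨j.succ, rfl⟩
      have hρP : ρ ∈ P := by
        apply hKP
        intro y hy
        exact hρc (Submodule.smul_mem_pointwise_smul y ρ c hy)
      apply hPm.ne_top
      rw [Ideal.eq_top_iff_one]
      have : (1 : Λ[X]) = ρ - (ρ - 1) := by ring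
      rw [this]
      exact Ideal.sub_mem _ hρP (hbP hρ)
    intro y hy
    have h2 : (1 : Λ[X]) ∈ Kc := by
      rw [h1]
      exact Submodule.mem_top
    have := h2 y hy
    rwa [one_mul] at this
  have hlc1 : IsUnit (d₁ 1).leadingCoeff := by
    rw [hd₁', hw1]
    exact hlc
  obtain ⟨U, hU1, hU2, hU3, hU4⟩ := row_reduce d₁ hlc1
  refine ⟨rowE 0 w hw0, U, cong_rowE b 0 w hw0 hwb, hU1, ?_, ?_, ?_⟩
  · rw [rmul_mul, ← hd₁, hU3]
    exact hlc1
  · intro i hi
    rw [rmul_mul, ← hd₁, hU3]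
    exact hU4 i hi
  · rw [rmul_mul, ← hd₁, hU2]
    exact le_antisymm hcJ (sup_le htl Ideal.mul_le_right)

end core

end Pool.Agent.H85.AAE2
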