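import Mathlib
import Pool.Agent.H94.AAE2.STB
import Pool.Agent.H49.AAE2.GP
import Pool.Agent.H20.AAE2.DIM1
import Pool.Agent.H20.AAE2.DIM2

/-! Project AAE2 (MP_ae801b_ag), module STB: the reduction step, final form. -/

set_option autoImplicit false

open Polynomial

namespace Pool.Agent.H85.AAE2

open Pool.Agent.H71.AAE

universe u

/-- reduction step (Ia), (Ib) in `Λ[X]` -/
theorem star_reduce {k : Type u} [Field k] {Λ : Type u} [CommRing Λ] [IsDomain Λ]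
    [IsNoetherianRing Λ] [Algebra k Λ] {r : ℕ} (b c : Ideal Λ[X]) (hbc : b ≤ c)
    (hdim : TrLE k r (Λ[X] ⧸ b)) (h : Λ[X]) (hb : h ∈ b) (hh : IsUnit h.leadingCoeff)
    (d : Fin (r + 3) → Λ[X]) (hd0 : IsUnit (d 0).leadingCoeff)
    (hd : c ≤ Ideal.span (Set.range d)) (hc : c = tl d ⊔ b * c) :
    ∃ E U : (Matrix (Fin (r + 3)) (Fin (r + 3)) Λ[X])ˣ, Cong b E ∧
      (∀ d' : Fin (r + 3) → Λ[X], tl (rmul d' U⁻¹) = tl d') ∧
      IsUnit (rmul d (E * U) 1).leadingCoeff ∧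
      (∀ i, i ≠ 1 → (rmul d (E * U) i).degree < (rmul d (E * U) 1).degree) ∧
      c = tl (rmul d (E * U)) ⊔ (b.comap C).map C * c := by
  have hTr : TrLE k r (Λ ⧸ b.comap (C : Λ →+* Λ[X])) := by
    refine trLE_of_injective (Ideal.quotientMapₐ b (Polynomial.CAlgHom : Λ →ₐ[k] Λ[X]) le_rfl) ?_
      hdim
    exact Ideal.quotientMap_injective (I := b) (f := (C : Λ →+* Λ[X]))
  exact star_reduce_core b c hbc h hb hh (fun Q _ _ g hg a x y hyp =>
    gp (dim_of_integral g hg (dim_of_trLE hTr)) le_rfl a x y hyp) d hd0 hd hc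

end Pool.Agent.H85.AAE2
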